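import Pool.Agent.U163.SA.Class

/-!
# Residue classes of primes with prescribed Legendre symbols of the primes of a finite set
-/

set_option autoImplicit false

namespace Pool.Agent.U163.SL

open Finset
open Pool.Agent.U163.SA

theorem class_t (P : Finset ℕ) (hPp : ∀ q ∈ P, q.Prime) (h2P : 2 ∈ P) (t : ℤ → ZMod 2) (ht1 : t 1 = 0)
    (htm : ∀ n m : ℤ, n ≠ 0 → m ≠ 0 → t (n * m) = t n + t m) (ht3 : t (-3) = 1) :
    ∃ Q a : ℕ, 0 < Q ∧ 4 ∣ Q ∧ ¬ 2 ∣ a ∧
      (∀ p : ℕ, p.Prime → p ∣ Q → p ≠ 2 → ¬ p ∣ a ∧ ¬ (p : ℤ) ∣ (a : ℤ) - 1) ∧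
      ∀ p : ℕ, p.Prime → p ≡ a [MOD Q] → ∀ [Fact p.Prime], ∀ n : ℤ, n ≠ 0 →
        (∀ q : ℕ, q.Prime → (q : ℤ) ∣ n → q ∈ P) → legendreSym p n = eps (t n) := by
  classical
  obtain ⟨a₈, ha8, ha2, hapow, hap⟩ := class8 (t (-1)) (t 2)
  have hr : ∀ q : ℕ, ∃ r : ℕ, q ∈ P → q ≠ 2 → (∀ [Fact q.Prime],
      legendreSym q r = eps (t q) * (-1) ^ (a₈ / 2 * (q / 2))) ∧ ¬ q ∣ r ∧
        ¬ (q : ℤ) ∣ (r : ℤ) - 1 := by
    intro q
    by_cases hqP : q ∈ P
    · by_cases hq2 : q = 2
      · exact ⟨0, fun _ h => absurd hq2 h⟩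
      · have hq := hPp q hqP
        have hF : Fact q.Prime := ⟨hq⟩
        obtain ⟨r, h1, h2, h3⟩ := classq q hq hq2 (eps (t q) * (-1) ^ (a₈ / 2 * (q / 2))) (by
          rcases eps_pm (t q) with h | h <;>
            rcases neg_one_pow_eq_or ℤ (a₈ / 2 * (q / 2)) with h' | h' <;> rw [h, h'] <;> norm_num)
          (by
            rintro rfl
            have e1 : (3 / 2 : ℕ) = 1 := by norm_num
            rw [e1, mul_one, hapow, ← eps_add, ← htm _ _ (by norm_num) (by norm_num)]
            have e2 : (((3 : ℕ) : ℤ)) * (-1) = -3 := by norm_num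
            rw [e2, ht3]
            decide)
        refine ⟨r, fun _ _ => ⟨?_, h2, h3⟩⟩
        intro _
        exact h1
    · exact ⟨0, fun h => absurd h hqP⟩
  choose r hr using hr
  obtain ⟨sm, hsm⟩ : ∃ sm : ℕ → ℕ, sm = fun i => if i = 2 then 8 else i := ⟨_, rfl⟩
  obtain ⟨aa, haa⟩ : ∃ aa : ℕ → ℕ, aa = fun i => if i = 2 then a₈ else r i := ⟨_, rfl⟩
  have hsm2 : sm 2 = 8 := by rw [hsm]; rfl
  have hsmq : ∀ q, q ≠ 2 → sm q = q := by
    intro q hq
    rw [hsm]
    exact if_neg hq
  have haa2 : aa 2 = a₈ := by rw [haa]; rfl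
  have haaq : ∀ q, q ≠ 2 → aa q = r q := by
    intro q hq
    rw [haa]
    exact if_neg hq
  obtain ⟨a, ha⟩ := Nat.chineseRemainderOfFinset aa sm P (by
      intro i hi
      by_cases h : i = 2
      · rw [h, hsm2]; norm_num
      · rw [hsmq i h]; exact (hPp i hi).ne_zero) (by
      intro i hi j hj hij
      show Nat.Coprime (sm i) (sm j)
      have hip := hPp i hi
      have hjp := hPp j hj
      have hcop := (Nat.coprime_primes hip hjp).2 hij
      by_cases h : i = 2
      · have h' : j ≠ 2 := fun h2 => hij (h.trans h2.symm)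
        rw [h, hsm2, hsmq j h']
        have e : (8 : ℕ) = 2 ^ 3 := by norm_num
        rw [e]
        rw [h] at hcop
        exact hcop.pow_left 3
      · by_cases h' : j = 2
        · rw [h', hsm2, hsmq i h]
          have e : (8 : ℕ) = 2 ^ 3 := by norm_num
          rw [e]
          rw [h'] at hcop
          exact hcop.pow_right 3
        · rw [hsmq i h, hsmq j h']
          exact hcop)
  have ha8' : a ≡ a₈ [MOD 8] := by
    have := ha 2 h2P
    rwa [hsm2, haa2] at this
  have haq : ∀ q ∈ P, q ≠ 2 → a ≡ r q [MOD q] := by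
    intro q hq hq2
    have := ha q hq
    rwa [hsmq q hq2, haaq q hq2] at this
  refine ⟨8 * ∏ q ∈ P, q, a, ?_, ?_, ?_, ?_, ?_⟩
  · exact Nat.mul_pos (by norm_num) (prod_pos fun q hq => (hPp q hq).pos)
  · exact Dvd.dvd.mul_right (by norm_num) _
  · intro h
    have h1 : a % 8 = a₈ % 8 := ha8'
    omega
  · intro p hp hpQ hp2
    have hpP : p ∈ P := by
      rcases (Nat.Prime.dvd_mul hp).1 hpQ with h | h
      · exfalso
        have h1 : p ∣ 2 ^ 3 := by norm_num; exact h
        exact hp2 ((Nat.prime_dvd_prime_iff_eq hp Nat.prime_two).1 (hp.dvd_of_dvd_pow h1))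
      · obtain ⟨q, hq, hpq⟩ := (hp.prime.dvd_finsetProd_iff _).1 h
        rw [(Nat.prime_dvd_prime_iff_eq hp (hPp q hq)).1 hpq]
        exact hq
    obtain ⟨-, g1, g2⟩ := hr p hpP hp2
    have h1 := haq p hpP hp2
    refine ⟨fun h => g1 ((h1.dvd_iff dvd_rfl).1 h), fun h => g2 ?_⟩
    have h2 : ((a : ℕ) : ℤ) ≡ (r p : ℤ) [ZMOD p] := (Int.natCast_modEq_iff).2 h1
    have h3 := h2.symm.dvd
    have h4 := dvd_sub h h3
    have e : (a : ℤ) - 1 - ((a : ℤ) - r p) = (r p : ℤ) - 1 := by ring
    rwa [e] at h4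
  · intro p hp hpa hF n hn0 hnP
    have hpa8 : p ≡ a [MOD 8] := hpa.of_mul_right _
    have hp8 : p % 8 = a₈ := by
      have h1 : p % 8 = a % 8 := hpa8
      have h2 : a % 8 = a₈ % 8 := ha8'
      omega
    have hp2 : p ≠ 2 := by
      rintro rfl
      omega
    obtain ⟨hm1, h2⟩ := hap p hp hp8
    have hq : ∀ q ∈ P, legendreSym p q = eps (t q) := by
      intro q hqP
      by_cases hq2 : q = 2
      · rw [hq2]
        exact_mod_cast h2
      · have hqp := hPp q hqP
        have hFq : Fact q.Prime := ⟨hqp⟩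
        obtain ⟨g0, -, -⟩ := hr q hqP hq2
        have h3 := legendreSym.quadratic_reciprocity' (p := p) (q := q) hp2 hq2
        have h4 : legendreSym q p = legendreSym q (r q) := by
          rw [legendreSym.mod, legendreSym.mod q (r q)]
          congr 1
          have h5 : p ≡ r q [MOD q] :=
            (((hpa.of_mul_left 8).of_dvd (dvd_prod_of_mem (fun q => q) hqP))).trans (haq q hqP hq2)
          exact (Int.natCast_modEq_iff).2 h5
        rw [h4, g0] at h3
        have h6 : (-1 : ℤ) ^ (p / 2 * (q / 2)) = (-1) ^ (a₈ / 2 * (q / 2)) := by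
          rw [pow_mul, pow_mul]
          congr 1
          obtain ⟨j, hj⟩ : ∃ j, p / 2 = a₈ / 2 + 2 * j := ⟨p / 8 * 2, by omega⟩
          rw [hj, pow_add, pow_mul]
          norm_num
        rw [h6, mul_comm] at h3
        have h7 : ((-1 : ℤ) ^ (a₈ / 2 * (q / 2))) ≠ 0 := by positivity
        exact (mul_left_cancel₀ h7 h3).symm
    have hnat : ∀ k : ℕ, k ≠ 0 → (∀ q : ℕ, q.Prime → q ∣ k → q ∈ P) →
        legendreSym p k = eps (t k) := by
      intro k
      induction k using Nat.strong_induction_on with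
      | _ k ih =>
        intro hk0 hkP
        by_cases hk1 : k = 1
        · rw [hk1]
          push_cast
          rw [legendreSym.at_one, ht1]
          decide
        · have hq1 := Nat.minFac_prime hk1
          obtain ⟨j, hj⟩ := Nat.minFac_dvd k
          have hj0 : j ≠ 0 := by
            rintro rfl
            apply hk0
            rw [hj, mul_zero]
          have hjk : j < k := by
            rw [hj]
            have := hq1.two_le
            have hjp : 0 < j := Nat.pos_of_ne_zero hj0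
            nlinarith
          have h3 := ih j hjk hj0 (fun q hq hqj => hkP q hq (by
            rw [hj]
            exact hqj.mul_left _))
          rw [hj]
          push_cast
          rw [legendreSym.mul, hq _ (hkP _ hq1 (Nat.minFac_dvd k)), h3, htm _ _ (by
            exact_mod_cast hq1.ne_zero) (by exact_mod_cast hj0), eps_add]
    have hna := hnat n.natAbs (Int.natAbs_ne_zero.2 hn0) (fun q hq hqn =>
      hnP q hq (Int.natCast_dvd.2 hqn))
    have hna0 : ((n.natAbs : ℕ) : ℤ) ≠ 0 := by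
      have := Int.natAbs_ne_zero.2 hn0
      exact_mod_cast this
    rcases Int.natAbs_eq n with h | h
    · rw [h]
      exact hna
    · have e : n = (-1) * (n.natAbs : ℤ) := by omega
      rw [e, legendreSym.mul, hm1, hna, htm _ _ (by norm_num) hna0, eps_add]

end Pool.Agent.U163.SL
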