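import Pool.Agent.U163.SL.ClassQ
import Pool.Agent.U163.SA.Exc
import Pool.Agent.Y855.A15

/-!
# Almost every prime is the least primitive root of infinitely many primes
-/

set_option autoImplicit false

namespace Pool.Agent.U163.SL

open Finset Filter
open Pool.Agent.U163.SA
open Pool.Agent.Y855 (MI Exc TT OP LF mem_OP NS cl)
open Pool.Agent.N430.LK (zf z_facts)

/-- `a` is the least positive primitive root modulo `p` -/
def LPR (p a : ℕ) : Prop :=
  0 < a ∧ orderOf (a : ZMod p) = p - 1 ∧ ∀ b : ℕ, 0 < b → b < a → orderOf (b : ZMod p) ≠ p - 1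

/-- distinct primes are multiplicatively independent -/
theorem MI_primes (G : Finset ℕ) (hG : ∀ q ∈ G, q.Prime) : MI (G.image (fun q : ℕ => (q : ℤ))) := by
  classical
  intro c hc n hn
  rw [mem_image] at hn
  obtain ⟨q, hq, rfl⟩ := hn
  have hF : Fact q.Prime := ⟨hG q hq⟩
  have h1 := Pool.Agent.N430.LK.val_prod q (G.image (fun q : ℕ => (q : ℤ))) (by
    intro n hn
    rw [mem_image] at hn
    obtain ⟨r, hr, rfl⟩ := hn
    exact_mod_cast (hG r hr).ne_zero) c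
  rw [hc, padicValRat.one, sum_eq_single (q : ℤ)] at h1
  · have h2 : padicValRat q (((q : ℤ)) : ℚ) = 1 := by
      rw [padicValRat.of_int, padicValInt.of_nat, padicValNat_self]
      rfl
    rw [h2, mul_one] at h1
    exact h1.symm
  · intro n hn hne
    rw [mem_image] at hn
    obtain ⟨r, hr, rfl⟩ := hn
    have hFr : Fact r.Prime := ⟨hG r hr⟩
    have hqr : q ≠ r := fun h => hne (by rw [h])
    rw [padicValRat.of_int, padicValInt.of_nat, padicValNat_primes hqr]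
    simp
  · intro h
    exact absurd (mem_image_of_mem _ hq) h

/-- the functional which counts the prime factors in `G` -/
noncomputable def tG (G : Finset ℕ) (n : ℤ) : ZMod 2 := ∑ i, wv G n i

theorem tG_one (G : Finset ℕ) : tG G 1 = 0 := by
  unfold tG
  rw [wv_one]
  simp

theorem tG_mul (G : Finset ℕ) (n k : ℤ) (hn : n ≠ 0) (hk : k ≠ 0) :
    tG G (n * k) = tG G n + tG G k := by
  unfold tG
  rw [wv_mul G hn hk, ← sum_add_distrib]
  rfl

theorem tG_nat (G : Finset ℕ) (b : ℕ) : tG G b = ∑ g ∈ G, ((b.factorization g : ℕ) : ZMod 2) := by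
  unfold tG
  rw [Fintype.sum_option]
  have h1 : wv G (b : ℤ) none = 0 := by
    show (if (b : ℤ) < 0 then (1 : ZMod 2) else 0) = 0
    rw [if_neg (by omega)]
  rw [h1, zero_add, ← sum_coe_sort G]
  rfl

theorem tG_neg3 (G : Finset ℕ) (hG : ∀ g ∈ G, g ≠ 3) : tG G (-3) = 1 := by
  unfold tG
  rw [Fintype.sum_option]
  have h1 : wv G (-3) none = 1 := by
    show (if (-3 : ℤ) < 0 then (1 : ZMod 2) else 0) = 1
    rw [if_pos (by norm_num)]
  rw [h1]
  have h2 : ∑ i : G, wv G (-3) (some i) = 0 := by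
    apply sum_eq_zero
    intro i _
    show (((-3 : ℤ).natAbs.factorization i.1 : ℕ) : ZMod 2) = 0
    have h3 : (-3 : ℤ).natAbs = 3 := rfl
    rw [h3, Nat.prime_three.factorization, Finsupp.single_eq_of_ne (hG i.1 i.2)]
    simp
  rw [h2, add_zero]

theorem tG_dvd (G : Finset ℕ) (b : ℕ) (h : tG G b ≠ 0) : ∃ g ∈ G, g ∣ b := by
  by_contra hcon
  push Not at hcon
  apply h
  rw [tG_nat]
  apply sum_eq_zero
  intro g hg
  rw [Nat.factorization_eq_zero_of_not_dvd (hcon g hg)]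
  simp

theorem tG_mem (G : Finset ℕ) (hG : ∀ q ∈ G, q.Prime) (g : ℕ) (hg : g ∈ G) : tG G g = 1 := by
  classical
  rw [tG_nat, sum_eq_single g]
  · rw [(hG g hg).factorization, Finsupp.single_eq_same]
    simp
  · intro r _ hne
    rw [(hG g hg).factorization, Finsupp.single_eq_of_ne hne]
    simp
  · intro h
    exact absurd hg h

open Classical in
/-- one prime `p` in the class -/
theorem least_one (Y : ℕ) (G : Finset ℕ) (hG : ∀ g ∈ G, g.Prime ∧ Y ≤ g ∧ g < 2 * Y)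
    (p : ℕ) (hp : p.Prime)
    (hleg : ∀ [Fact p.Prime], ∀ n : ℤ, n ≠ 0 → (∀ q : ℕ, q.Prime → (q : ℤ) ∣ n → q < 2 * Y) →
      legendreSym p n = eps (tG G n)) (hp2 : 2 < p)
    (hcard : ((G.image (fun q : ℕ => (q : ℤ))).filter (fun n : ℤ => (p : ℤ) ∣ n ∨
      ∃ l : ℕ, l.Prime ∧ 3 ≤ l ∧ l ∣ p - 1 ∧ (n : ZMod p) ^ ((p - 1) / l) = 1)).card < G.card) :
    ∃ g ∈ G, LPR p g := by
  have hF : Fact p.Prime := ⟨hp⟩
  -- a primitive root in `G`
  have hex : ∃ g ∈ G, orderOf ((g : ℕ) : ZMod p) = p - 1 := by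
    have hci : (G.image (fun q : ℕ => (q : ℤ))).card = G.card :=
      card_image_of_injective _ Nat.cast_injective
    obtain ⟨n, hn, hnb⟩ : ∃ n ∈ G.image (fun q : ℕ => (q : ℤ)), ¬ ((p : ℤ) ∣ n ∨
      ∃ l : ℕ, l.Prime ∧ 3 ≤ l ∧ l ∣ p - 1 ∧ (n : ZMod p) ^ ((p - 1) / l) = 1) := by
      by_contra hcon
      push Not at hcon
      have h1 : (G.image (fun q : ℕ => (q : ℤ))).filter (fun n : ℤ => (p : ℤ) ∣ n ∨
          ∃ l : ℕ, l.Prime ∧ 3 ≤ l ∧ l ∣ p - 1 ∧ (n : ZMod p) ^ ((p - 1) / l) = 1) =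
          G.image (fun q : ℕ => (q : ℤ)) := by
        rw [filter_eq_self]
        intro n hn
        exact hcon n hn
      rw [h1, hci] at hcard
      exact lt_irrefl _ hcard
    rw [mem_image] at hn
    obtain ⟨g, hg, rfl⟩ := hn
    push Not at hnb
    refine ⟨g, hg, ?_⟩
    have h1 := (Pool.Agent.Y855.order_iff' (g : ℤ) p hp2 hnb.1).2 ⟨?_, ?_⟩
    · rw [← h1]
      congr 1
      push_cast
      rfl
    · rw [hleg (g : ℤ) (by exact_mod_cast (hG g hg).1.ne_zero) (by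
        intro q hq hqg
        have h2 : q ∣ g := by exact_mod_cast hqg
        have h3 := (Nat.prime_dvd_prime_iff_eq hq (hG g hg).1).1 h2
        rw [h3]
        exact (hG g hg).2.2), tG_mem G (fun q hq => (hG q hq).1) g hg]
      decide
    · rintro ⟨l, hl, hl3, hlp, h⟩
      exact hnb.2 l hl hl3 hlp h
  obtain ⟨g₀, hg₀, hmin⟩ := exists_min_image (G.filter (fun g => orderOf ((g : ℕ) : ZMod p) = p - 1))
    (fun g => g) (by
      obtain ⟨g, hg, h⟩ := hex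
      exact ⟨g, mem_filter.2 ⟨hg, h⟩⟩)
  rw [mem_filter] at hg₀
  refine ⟨g₀, hg₀.1, (hG g₀ hg₀.1).1.pos, hg₀.2, fun b hb hbg hord => ?_⟩
  have hbY : b < 2 * Y := hbg.trans (hG g₀ hg₀.1).2.2
  have hpb : ¬ (p : ℤ) ∣ (b : ℤ) := by
    intro h
    have h1 : ((b : ℕ) : ZMod p) = 0 := by
      have h2 : p ∣ b := by exact_mod_cast h
      exact (ZMod.natCast_eq_zero_iff b p).2 h2
    rw [h1] at hord
    have h3 : orderOf (0 : ZMod p) = 0 := orderOf_zero (ZMod p)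
    rw [h3] at hord
    omega
  have hord' : orderOf (((b : ℤ)) : ZMod p) = p - 1 := by
    rw [← hord]
    congr 1
    push_cast
    rfl
  have h1 := ((Pool.Agent.Y855.order_iff' (b : ℤ) p hp2 hpb).1 hord').1
  rw [hleg (b : ℤ) (by exact_mod_cast hb.ne') (by
    intro q hq hqb
    have h2 : q ∣ b := by exact_mod_cast hqb
    exact (Nat.le_of_dvd hb h2).trans_lt hbY)] at h1
  have h2 : tG G b ≠ 0 := by
    intro h
    rw [h] at h1
    exact absurd h1 (by decide)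
  obtain ⟨g, hg, k, hk⟩ := tG_dvd G b h2
  obtain ⟨-, hgY, -⟩ := hG g hg
  have hk1 : k = 1 := by
    rcases Nat.lt_or_ge k 2 with h | h
    · rcases Nat.eq_zero_or_pos k with h' | h'
      · rw [h', mul_zero] at hk
        omega
      · omega
    · have : g * 2 ≤ g * k := Nat.mul_le_mul_left _ h
      omega
  rw [hk1, mul_one] at hk
  rw [hk] at hord hbg
  have h3 := hmin g (mem_filter.2 ⟨hg, hord⟩)
  omega

open Classical in
/-- **All but boundedly many primes of `[Y, 2 Y)` are the least primitive root of many primes.** -/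
theorem many : ∃ C : ℕ, ∀ᶠ x : ℕ in atTop, ∀ Y : ℕ, 7 * (Y : ℝ) ≤ Real.log (Real.log x) →
    ((Ico Y (2 * Y)).filter (fun a => a.Prime ∧
      (((Icc 1 x).filter (fun p => p.Prime ∧ LPR p a)).card : ℝ) < x / Real.log x ^ 3)).card ≤ C := by
  obtain ⟨K₁, hK₁, hcore⟩ := Pool.Agent.Y855.core (1 / 2) (by norm_num)
  obtain ⟨x₀, hx₀3, hcore⟩ := hcore 1
  obtain ⟨k, hk⟩ : ∃ k : ℕ, K₁ ≤ k := exists_nat_ge K₁
  have hk1r : (1 : ℝ) ≤ k := hK₁.trans hk
  have hk1 : 1 ≤ k := by exact_mod_cast hk1r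
  obtain ⟨R, hR⟩ : ∃ R : ℕ, R = 4 * k := ⟨_, rfl⟩
  have hR1 : (1 : ℝ) ≤ R := by rw [hR]; push_cast; linarith
  obtain ⟨C, hC⟩ : ∃ C : ℕ, C = R * R + 3 := ⟨_, rfl⟩
  obtain ⟨C₂, hC₂⟩ : ∃ C₂ : ℝ, C₂ = R * ((((C + 1 : ℕ) : ℝ) + 1) ^ R * 5 ^ R * (4 * R)) := ⟨_, rfl⟩
  have hC₂0 : 0 ≤ C₂ := by rw [hC₂]; positivity
  refine ⟨C, ?_⟩
  have hev := Pool.Agent.N430.LK.ev_log (2 * C₂) (1 / (R : ℝ)) (by positivity) 4
  have hlog : ∀ᶠ x : ℕ in atTop, 4 * (k : ℝ) ^ 2 + (2 * K₁ * (C + 3)) ^ 2 + 3 ≤ Real.log (x : ℝ) :=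
    (Real.tendsto_log_atTop.comp tendsto_natCast_atTop_atTop).eventually_ge_atTop _
  filter_upwards [hev, hlog, eventually_ge_atTop x₀] with x hx1 hx2 hx3 Y hY
  obtain ⟨L, hL⟩ : ∃ L : ℝ, L = Real.log x := ⟨_, rfl⟩
  rw [← hL] at hx1 hx2 hY ⊢
  have hL3 : 3 ≤ L := by
    have : 0 ≤ 4 * (k : ℝ) ^ 2 + (2 * K₁ * (C + 3)) ^ 2 := by positivity
    linarith
  have hLk : 4 * (k : ℝ) ^ 2 ≤ L := by
    have : 0 ≤ (2 * K₁ * (C + 3)) ^ 2 := by positivity
    linarith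
  have hLC : (2 * K₁ * (C + 3)) ^ 2 ≤ L := by
    have : 0 ≤ 4 * (k : ℝ) ^ 2 := by positivity
    linarith
  obtain ⟨hz2, hzk, hzs, hzl, hzR, hx3'⟩ := z_facts k x hk1 (by rw [← hL]; exact hLk)
  obtain ⟨z, hz⟩ : ∃ z : ℕ, z = zf k x := ⟨_, rfl⟩
  rw [← hz, ← hL] at hzl hzs
  rw [← hz] at hz2 hzk hzR
  rw [← hR] at hzR
  have hx0 : (0 : ℝ) < x := by exact_mod_cast (by omega : 0 < x)
  have hxone : (1 : ℝ) ≤ x := by exact_mod_cast (by omega : 1 ≤ x)
  have hz2r : (2 : ℝ) ≤ z := by exact_mod_cast hz2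
  have hlz : 0 < Real.log z := Real.log_pos (by linarith)
  have hzx : (z : ℝ) ≤ x := by
    calc (z : ℝ) = (z : ℝ) ^ 1 := (pow_one _).symm
      _ ≤ (z : ℝ) ^ k := pow_le_pow_right₀ (by linarith) hk1
      _ ≤ x := hzk
  have hlzL : Real.log z ≤ L := by
    rw [hL]
    exact Real.log_le_log (by linarith) hzx
  obtain ⟨-, hcz⟩ := hcore x hx3
  obtain ⟨-, -, -, hTT, -, hNS⟩ := hcz z (by rw [← hL]; exact hzs) (by
    calc (z : ℝ) ^ K₁ ≤ (z : ℝ) ^ (k : ℝ) := Real.rpow_le_rpow_of_exponent_le (by linarith) hk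
      _ = (z : ℝ) ^ k := Real.rpow_natCast _ _
      _ ≤ x := hzk)
  rw [← hL] at hTT
  by_contra hcon
  rw [not_le] at hcon
  obtain ⟨G, hGs, hGc⟩ := exists_subset_card_eq (Nat.succ_le_of_lt hcon)
  have hGp : ∀ g ∈ G, g.Prime ∧ Y ≤ g ∧ g < 2 * Y := by
    intro g hg
    have := hGs hg
    rw [mem_filter, mem_Ico] at this
    exact ⟨this.2.1, this.1.1, this.1.2⟩
  have hGx : ∀ g ∈ G, (((Icc 1 x).filter (fun p => p.Prime ∧ LPR p g)).card : ℝ) < x / L ^ 3 := by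
    intro g hg
    have := hGs hg
    rw [mem_filter] at this
    exact this.2.2
  have hY4 : 4 ≤ Y := by
    by_contra h
    have h1 : G.card ≤ (Ico Y (2 * Y)).card := card_le_card fun g hg =>
      (mem_filter.1 (hGs hg)).1
    rw [Nat.card_Ico, hGc] at h1
    omega
  -- the modulus
  obtain ⟨P, hP⟩ : ∃ P : Finset ℕ, P = (range (2 * Y)).filter Nat.Prime := ⟨_, rfl⟩
  have hPp : ∀ q ∈ P, q.Prime := fun q hq => by
    rw [hP, mem_filter] at hq
    exact hq.2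
  have hPm : ∀ q : ℕ, q.Prime → q < 2 * Y → q ∈ P := fun q hq h => by
    rw [hP, mem_filter, mem_range]
    exact ⟨h, hq⟩
  obtain ⟨a, ha2, haQ, hleg⟩ := class_q P hPp (hPm 2 Nat.prime_two (by omega)) (tG G) (tG_one G)
    (tG_mul G) (tG_neg3 G (fun g hg h => by have := hGp g hg; omega))
  obtain ⟨Q, hQ⟩ : ∃ Q : ℕ, Q = 8 * ∏ q ∈ P, q := ⟨_, rfl⟩
  rw [← hQ] at haQ hleg
  have hQ1 : 1 ≤ Q := by
    rw [hQ]
    exact Nat.mul_pos (by norm_num) (prod_pos fun q hq => (hPp q hq).pos)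
  have hQ1r : (1 : ℝ) ≤ Q := by exact_mod_cast hQ1
  have hQdvd : ∀ q ∈ P, q ∣ Q := fun q hq => by
    rw [hQ]
    exact (dvd_prod_of_mem (fun q => q) hq).mul_left 8
  have hQ4 : Q * Q ≤ 1024 ^ Y := by
    have h1 : ∏ q ∈ P, q ≤ 4 ^ (2 * Y - 1) := by
      have h2 := primorial_le_four_pow (2 * Y - 1)
      unfold primorial at h2
      have h3 : 2 * Y - 1 + 1 = 2 * Y := by omega
      rw [h3] at h2
      rw [hP]
      exact h2
    have h2 : Q ≤ 2 * 16 ^ Y := by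
      rw [hQ]
      have h3 : 8 * ∏ q ∈ P, q ≤ 8 * 4 ^ (2 * Y - 1) := Nat.mul_le_mul_left _ h1
      refine h3.trans (le_of_eq ?_)
      have h4 : (4 : ℕ) ^ (2 * Y) = 4 ^ (2 * Y - 1) * 4 := by
        rw [← pow_succ]
        congr 1
        omega
      have h5 : (16 : ℕ) ^ Y = 4 ^ (2 * Y) := by
        rw [pow_mul]
        norm_num
      rw [h5, h4]
      ring
    have h3 : (4 : ℕ) ≤ 4 ^ Y := by
      calc 4 = 4 ^ 1 := (pow_one 4).symm
        _ ≤ 4 ^ Y := Nat.pow_le_pow_right (by norm_num) (by omega)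
    calc Q * Q ≤ (2 * 16 ^ Y) * (2 * 16 ^ Y) := Nat.mul_le_mul h2 h2
      _ = 4 * (256 ^ Y) := by
        have : (256 : ℕ) ^ Y = 16 ^ Y * 16 ^ Y := by
          rw [← mul_pow]
          norm_num
        rw [this]
        ring
      _ ≤ 4 ^ Y * 256 ^ Y := Nat.mul_le_mul_right _ h3
      _ = 1024 ^ Y := by
        rw [← mul_pow]
        norm_num
  have hQL : (Q : ℝ) * Q ≤ L := by
    have h1 : ((Q * Q : ℕ) : ℝ) ≤ ((1024 ^ Y : ℕ) : ℝ) := by exact_mod_cast hQ4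
    have h2 : ((1024 ^ Y : ℕ) : ℝ) ≤ Real.exp (7 * Y) := by
      push_cast
      have h3 : (1024 : ℝ) ≤ Real.exp 7 := by
        have h4 : Real.log 1024 ≤ 7 := by
          have h5 : (1024 : ℝ) = 2 ^ 10 := by norm_num
          rw [h5, Real.log_pow]
          have := Real.log_two_lt_d9
          push_cast
          linarith
        calc (1024 : ℝ) = Real.exp (Real.log 1024) := (Real.exp_log (by norm_num)).symm
          _ ≤ Real.exp 7 := Real.exp_le_exp.2 h4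
      calc (1024 : ℝ) ^ Y ≤ (Real.exp 7) ^ Y := pow_le_pow_left₀ (by norm_num) h3 Y
        _ = Real.exp (7 * Y) := by rw [← Real.exp_nat_mul]; congr 1; ring
    have h3 : Real.exp (7 * Y) ≤ L := by
      calc Real.exp (7 * Y) ≤ Real.exp (Real.log L) := Real.exp_le_exp.2 hY
        _ = L := Real.exp_log (by linarith)
    push_cast at h1 h2
    exact h1.trans (h2.trans h3)
  have hQL1 : (Q : ℝ) ≤ L := by nlinarith
  -- the primes in the class
  have haQc : a.Coprime Q := by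
    rw [Nat.coprime_iff_gcd_eq_one]
    by_contra hne
    obtain ⟨q, hq, hqd⟩ := Nat.exists_prime_and_dvd hne
    have h1 := hqd.trans (Nat.gcd_dvd_left _ _)
    have h2 := hqd.trans (Nat.gcd_dvd_right _ _)
    by_cases h3 : q = 2
    · exact ha2 (h3 ▸ h1)
    · exact (haQ q hq h2 h3).1 h1
  have hNS1 := hNS Q a hQ1 (by rw [pow_one, ← hL]; exact hQL1) haQc (by
    intro q hq hq3 h
    rw [Nat.mem_primeFactors] at hq
    apply (haQ q hq.1 hq.2.1 (by omega)).2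
    have h1 : (a : ℤ) % q = 1 := by
      have : ((a % q : ℕ) : ℤ) = 1 := by rw [h]; rfl
      push_cast at this
      exact this
    exact (Int.modEq_iff_dvd.1 ((Int.ModEq.symm (by
      rw [Int.ModEq, h1, Int.emod_eq_of_lt (by norm_num) (by exact_mod_cast hq.1.one_lt)]) :
        (1 : ℤ) ≡ a [ZMOD q]))))
  have hclQ := Pool.Agent.Y855.cl_ge Q hQ1
  have hcl0 : 0 < cl Q := Pool.Agent.Y855.cl_pos Q hQ1
  have hNS2 : x / (2 * K₁ * Q * L ^ 2) ≤ ((NS x Q a (OP z)).card : ℝ) := by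
    have h1 := (abs_le.1 hNS1).1
    have h2 : 1 / 2 * (cl Q * ((TT x z).card : ℝ)) ≤ ((NS x Q a (OP z)).card : ℝ) := by linarith
    refine le_trans ?_ h2
    have h3 : (x : ℝ) / (K₁ * (L * L)) ≤ ((TT x z).card : ℝ) := by
      refine le_trans ?_ hTT
      apply div_le_div_of_nonneg_left hx0.le (by positivity)
      apply mul_le_mul_of_nonneg_left _ (by linarith)
      exact mul_le_mul_of_nonneg_left hlzL (by linarith)
    have h4 : 1 / (Q : ℝ) * (x / (K₁ * (L * L))) ≤ cl Q * ((TT x z).card : ℝ) :=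
      mul_le_mul hclQ h3 (by positivity) hcl0.le
    have h5 : x / (2 * K₁ * Q * L ^ 2) = 1 / 2 * (1 / (Q : ℝ) * (x / (K₁ * (L * L)))) := by
      have : K₁ ≠ 0 := by positivity
      field_simp
    rw [h5]
    exact mul_le_mul_of_nonneg_left h4 (by norm_num)
  -- the exceptional primes
  obtain ⟨M, hM⟩ : ∃ M : Finset ℤ, M = G.image (fun q : ℕ => (q : ℤ)) := ⟨_, rfl⟩
  have hMc : M.card = C + 1 := by
    rw [hM, card_image_of_injective _ Nat.cast_injective, hGc]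
  have hMI : MI M := by
    rw [hM]
    exact MI_primes G (fun g hg => (hGp g hg).1)
  have hM0 : ∀ n ∈ M, n ≠ 0 := by
    intro n hn
    rw [hM, mem_image] at hn
    obtain ⟨g, hg, rfl⟩ := hn
    exact_mod_cast (hGp g hg).1.ne_zero
  obtain ⟨EE, hEE⟩ : ∃ EE : Finset ℕ, EE = (Icc 2 R).biUnion (fun r => Exc x r M) := ⟨_, rfl⟩
  have hEEc : (EE.card : ℝ) ≤ C₂ * ((L + 1) * (x : ℝ) ^ (1 - 1 / (R : ℝ))) := by
    have h1 : (EE.card : ℝ) ≤ ∑ r ∈ Icc 2 R, ((Exc x r M).card : ℝ) := by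
      rw [hEE]
      exact_mod_cast card_biUnion_le
    have h2 := Pool.Agent.N430.LK.exc_sum R (C + 1) x (2 * Y) (by omega) (by omega) M hM0 hMI
      (fun n hn => by
        rw [hM, mem_image] at hn
        obtain ⟨g, hg, rfl⟩ := hn
        have := (hGp g hg).2.2
        rw [Int.natAbs_natCast]
        omega) hMc.le
    refine h1.trans (h2.trans ?_)
    have hlY : Real.log ((2 * Y : ℕ) : ℝ) ≤ L := by
      have h3 : Real.log ((2 * Y : ℕ) : ℝ) ≤ ((2 * Y : ℕ) : ℝ) - 1 := by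
        apply Real.log_le_sub_one_of_pos
        exact_mod_cast (by omega : 0 < 2 * Y)
      have h4 : Real.log L ≤ L - 1 := Real.log_le_sub_one_of_pos (by linarith)
      push_cast at h3 ⊢
      have h5 : (0 : ℝ) ≤ Y := Nat.cast_nonneg _
      linarith
    rw [hC₂]
    have h6 : (R : ℝ) * (((((C + 1 : ℕ) : ℝ)) + 1) ^ R * 5 ^ R * (4 * R) *
        (Real.log ((2 * Y : ℕ) : ℝ) + 1) * (x : ℝ) ^ (1 - 1 / (R : ℝ))) =
        R * (((((C + 1 : ℕ) : ℝ)) + 1) ^ R * 5 ^ R * (4 * R)) *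
          ((Real.log ((2 * Y : ℕ) : ℝ) + 1) * (x : ℝ) ^ (1 - 1 / (R : ℝ))) := by ring
    rw [h6]
    apply mul_le_mul_of_nonneg_left _ (by positivity)
    exact mul_le_mul_of_nonneg_right (by linarith) (by positivity)
  -- every other prime of the class has its least primitive root in `G`
  have hsub : NS x Q a (OP z) \ EE ⊆
      G.biUnion (fun g => (Icc 1 x).filter (fun p => p.Prime ∧ LPR p g)) := by
    intro p hp
    obtain ⟨hpN, hpE⟩ := Finset.mem_sdiff.1 hp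
    unfold NS at hpN
    rw [mem_filter, mem_Icc] at hpN
    obtain ⟨⟨hp1, hpx⟩, hpp, hpa, hpz⟩ := hpN
    have hpT : p ∈ TT x z := by
      unfold TT
      rw [mem_filter, mem_Icc]
      exact ⟨⟨hp1, hpx⟩, hpp, hpz⟩
    have h2Q : 2 ∣ Q := hQdvd 2 (hPm 2 Nat.prime_two (by omega))
    have hp2 : 2 < p := by
      have h1 : p ≠ 2 := by
        rintro rfl
        exact ha2 (((hpa.of_dvd h2Q).dvd_iff dvd_rfl).1 dvd_rfl)
      have := hpp.two_le
      omega
    have hpM : ∀ n ∈ M, ¬ (p : ℤ) ∣ n := by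
      intro n hn h
      rw [hM, mem_image] at hn
      obtain ⟨g, hg, rfl⟩ := hn
      have h1 : p ∣ g := by exact_mod_cast h
      have h2 := (Nat.prime_dvd_prime_iff_eq hpp (hGp g hg).1).1 h1
      have h3 : p ∣ Q := hQdvd p (hPm p hpp (by rw [h2]; exact (hGp g hg).2.2))
      exact (haQ p hpp h3 (by omega)).1 (((hpa.of_dvd h3).dvd_iff dvd_rfl).1 dvd_rfl)
    have h1 := one_prime M x z R p hx3' hz2 hzR hpT hpM (by
      intro r hr h
      apply hpE
      rw [hEE, mem_biUnion]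
      exact ⟨r, hr, h⟩) R (by positivity) (by
        rw [← hL, hR]
        push_cast
        linarith)
    have h2 : (M.filter (fun n : ℤ => (p : ℤ) ∣ n ∨ ∃ l : ℕ, l.Prime ∧ 3 ≤ l ∧ l ∣ p - 1 ∧
        (n : ZMod p) ^ ((p - 1) / l) = 1)).card ≤ R * R := by exact_mod_cast h1
    obtain ⟨g, hg, hgp⟩ := least_one Y G hGp p hpp (by
      intro hF n hn hnq
      exact hleg p hpp hpa n hn (fun q hq hqn => hPm q hq (hnq q hq hqn))) hp2 (by
      rw [← hM, hGc]
      omega)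
    rw [mem_biUnion]
    exact ⟨g, hg, mem_filter.2 ⟨mem_Icc.2 ⟨hp1, hpx⟩, hpp, hgp⟩⟩
  have hcount : ((NS x Q a (OP z)).card : ℝ) < (C + 1) * (x / L ^ 3) + EE.card := by
    have h1 : (NS x Q a (OP z)).card ≤ (NS x Q a (OP z) \ EE).card + EE.card := by
      have := le_card_sdiff EE (NS x Q a (OP z))
      omega
    have h2 : (NS x Q a (OP z) \ EE).card ≤
        ∑ g ∈ G, ((Icc 1 x).filter (fun p => p.Prime ∧ LPR p g)).card :=
      (card_le_card hsub).trans card_biUnion_le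
    have h3 : ((NS x Q a (OP z)).card : ℝ) ≤
        ∑ g ∈ G, (((Icc 1 x).filter (fun p => p.Prime ∧ LPR p g)).card : ℝ) + EE.card := by
      have : (NS x Q a (OP z)).card ≤
        ∑ g ∈ G, ((Icc 1 x).filter (fun p => p.Prime ∧ LPR p g)).card + EE.card := by omega
      exact_mod_cast this
    have hGne : G.Nonempty := card_pos.1 (by omega)
    have h4 : ∑ g ∈ G, (((Icc 1 x).filter (fun p => p.Prime ∧ LPR p g)).card : ℝ) <
        ∑ _g ∈ G, x / L ^ 3 := sum_lt_sum_of_nonempty hGne hGx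
    rw [sum_const, hGc, nsmul_eq_mul] at h4
    push_cast at h4
    linarith
  -- the contradiction
  have hxR : (x : ℝ) ^ (1 / (R : ℝ)) * (x : ℝ) ^ (1 - 1 / (R : ℝ)) = x := by
    rw [← Real.rpow_add hx0]
    have : 1 / (R : ℝ) + (1 - 1 / (R : ℝ)) = 1 := by ring
    rw [this, Real.rpow_one]
  have hE3 : L ^ 3 * (EE.card : ℝ) ≤ x := by
    have h1 : L ^ 3 * (EE.card : ℝ) ≤ L ^ 3 * (C₂ * ((L + 1) * (x : ℝ) ^ (1 - 1 / (R : ℝ)))) :=
      mul_le_mul_of_nonneg_left hEEc (by positivity)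
    have h2 : L ^ 3 * (C₂ * ((L + 1) * (x : ℝ) ^ (1 - 1 / (R : ℝ)))) ≤
        2 * C₂ * L ^ 4 * (x : ℝ) ^ (1 - 1 / (R : ℝ)) := by
      have h3 : L ^ 3 * (L + 1) ≤ 2 * L ^ 4 := by
        have h5 : (0 : ℝ) ≤ L ^ 3 := by positivity
        nlinarith
      have h4 := mul_le_mul_of_nonneg_right h3
        (show 0 ≤ C₂ * (x : ℝ) ^ (1 - 1 / (R : ℝ)) by positivity)
      linarith
    have h3 := mul_le_mul_of_nonneg_right hx1 (show 0 ≤ (x : ℝ) ^ (1 - 1 / (R : ℝ)) by positivity)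
    rw [hxR] at h3
    linarith
  have hN3 : L / Q * x ≤ 2 * K₁ * (L ^ 3 * ((NS x Q a (OP z)).card : ℝ)) := by
    have h1 := mul_le_mul_of_nonneg_left hNS2 (show 0 ≤ 2 * K₁ * L ^ 3 by positivity)
    have h2 : 2 * K₁ * L ^ 3 * (x / (2 * K₁ * Q * L ^ 2)) = L / Q * x := by
      have : K₁ ≠ 0 := by positivity
      have : L ≠ 0 := by positivity
      field_simp
    rw [h2] at h1
    linarith
  have hcnt3 : L ^ 3 * ((NS x Q a (OP z)).card : ℝ) < (C + 1) * x + x := by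
    have h1 := mul_lt_mul_of_pos_left hcount (show 0 < L ^ 3 by positivity)
    have h2 : L ^ 3 * ((C + 1) * (x / L ^ 3) + EE.card) = (C + 1) * x + L ^ 3 * EE.card := by
      have : L ≠ 0 := by positivity
      field_simp
    rw [h2] at h1
    linarith
  have h7 : L / Q * x < 2 * K₁ * (C + 2) * x := by
    have h1 := mul_lt_mul_of_pos_left hcnt3 (show 0 < 2 * K₁ by positivity)
    have h2 : 2 * K₁ * ((C + 1) * x + x) = 2 * K₁ * (C + 2) * x := by ring
    rw [h2] at h1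
    linarith
  have h8 : L / Q < 2 * K₁ * (C + 2) := lt_of_mul_lt_mul_right h7 hx0.le
  have h9 : (Q : ℝ) ≤ L / Q := by
    rw [le_div_iff₀ (by linarith)]
    exact hQL
  have h10 : (2 * K₁ * (C + 3)) ^ 2 ≤ (L / Q) ^ 2 := by
    refine hLC.trans ?_
    have h11 : L = (L / Q) * Q := by field_simp
    have h12 : 0 ≤ L / Q := by positivity
    calc L = (L / Q) * Q := h11
      _ ≤ (L / Q) * (L / Q) := mul_le_mul_of_nonneg_left h9 h12
      _ = (L / Q) ^ 2 := (sq _).symm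
  have h13 : 2 * K₁ * (C + 3) ≤ L / Q := by
    have h14 : 0 ≤ L / Q := by positivity
    exact (abs_le_of_sq_le_sq' h10 h14).2
  have h15 : 2 * K₁ * (C + 2) ≤ 2 * K₁ * ((C : ℝ) + 3) :=
    mul_le_mul_of_nonneg_left (by linarith) (by positivity)
  linarith

end Pool.Agent.U163.SL
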