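import Pool.Agent.U163.SL.Least

/-!
# Almost every prime is the least primitive root of infinitely many primes
-/

set_option autoImplicit false

namespace Pool.Agent.U163.SL

open Finset Filter

open Classical in
theorem infinite : ∃ C : ℕ,
    (∀ Y : ℕ, ((Ico Y (2 * Y)).filter (fun a => a.Prime ∧
      ¬ {p : ℕ | p.Prime ∧ LPR p a}.Infinite)).card ≤ C) ∧
    ∀ᶠ x : ℕ in atTop, ∀ Y : ℕ, 7 * (Y : ℝ) ≤ Real.log (Real.log x) →
    ((Ico Y (2 * Y)).filter (fun a => a.Prime ∧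
      (((Icc 1 x).filter (fun p => p.Prime ∧ LPR p a)).card : ℝ) < x / Real.log x ^ 3)).card ≤ C := by
  obtain ⟨C, hC⟩ := many
  refine ⟨C, fun Y => ?_, hC⟩
  obtain ⟨E, hE⟩ : ∃ E : Finset ℕ, E = (Ico Y (2 * Y)).filter (fun a => a.Prime ∧
      ¬ {p : ℕ | p.Prime ∧ LPR p a}.Infinite) := ⟨_, rfl⟩
  rw [← hE]
  have hfin : ∀ a ∈ E, ∃ n : ℕ, ∀ x : ℕ, ((Icc 1 x).filter (fun p => p.Prime ∧ LPR p a)).card ≤ n := by
    intro a ha
    rw [hE, mem_filter] at ha
    have h1 := Set.not_infinite.1 ha.2.2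
    refine ⟨h1.toFinset.card, fun x => card_le_card fun p hp => ?_⟩
    rw [mem_filter] at hp
    rw [Set.Finite.mem_toFinset]
    exact hp.2
  have hn : ∃ n : ℕ, ∀ a ∈ E, ∀ x : ℕ, ((Icc 1 x).filter (fun p => p.Prime ∧ LPR p a)).card ≤ n := by
    choose! n hn using hfin
    exact ⟨E.sup n, fun a ha x => (hn a ha x).trans (le_sup (f := n) ha)⟩
  obtain ⟨n, hn⟩ := hn
  have hev := Pool.Agent.N430.LK.ev_log ((n : ℝ) + 1) 1 one_pos 3
  have hll : ∀ᶠ x : ℕ in atTop, 7 * (Y : ℝ) ≤ Real.log (Real.log (x : ℝ)) :=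
    (Real.tendsto_log_atTop.comp (Real.tendsto_log_atTop.comp
      tendsto_natCast_atTop_atTop)).eventually_ge_atTop _
  obtain ⟨x, h1, h2, h3, h4⟩ := (hC.and (hev.and (hll.and (eventually_ge_atTop 3)))).exists
  refine le_trans (card_le_card fun a ha => ?_) (h1 Y h3)
  have ha' := ha
  rw [hE, mem_filter] at ha'
  rw [mem_filter]
  refine ⟨ha'.1, ha'.2.1, ?_⟩
  have h5 : (((Icc 1 x).filter (fun p => p.Prime ∧ LPR p a)).card : ℝ) ≤ n := by
    exact_mod_cast hn a ha x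
  have h6 : (1 : ℝ) < x := by exact_mod_cast (by omega : 1 < x)
  have hL : 0 < Real.log x := Real.log_pos h6
  rw [lt_div_iff₀ (by positivity)]
  rw [Real.rpow_one] at h2
  have h7 : (((Icc 1 x).filter (fun p => p.Prime ∧ LPR p a)).card : ℝ) * Real.log x ^ 3 ≤
      n * Real.log x ^ 3 := mul_le_mul_of_nonneg_right h5 (by positivity)
  have h8 : 0 < Real.log (x : ℝ) ^ 3 := by positivity
  linarith

end Pool.Agent.U163.SL
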